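import Pool.Agent.Lib.MP_d81877_alX.All

/-!
# Guralnick's conjecture on the dimension of first cohomology is false

For every natural number `C` there are a field `k`, a finite group `G` and a finite-dimensional
faithful absolutely irreducible `kG`-module `V` with `dim H¹(G, V) ≥ C`.
-/

namespace Pool.Agent.Results.MP_d81877_al.UnboundedH1

open Pool.Agent.MP_d81877_alS

theorem result (C : ℕ) :
    ∃ (k : Type) (_ : Field k) (G : Type) (_ : Group G) (_ : Finite G)
      (V : Type) (_ : AddCommGroup V) (_ : Module k V) (_ : FiniteDimensional k V)
      (ρ : Representation k G V), Function.Injective ρ ∧ IsAbsolutelyIrreducible ρ ∧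
        C ≤ Module.finrank k (groupCohomology.H1 (Rep.of ρ)) :=
  exists_of_big (D81877X.big C)

end Pool.Agent.Results.MP_d81877_al.UnboundedH1
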